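import Mathlib

set_option autoImplicit false

/-!
Indicator of the edges of a closed walk, degrees and cuts for Hamiltonian cycles.
-/

namespace Pool.Agent.TH386.PR

open SimpleGraph Finset

variable {V : Type} [DecidableEq V] {H : SimpleGraph V}

/-- Indicator (0 or 1) of the edge `xy` in the walk `p`. -/
def chi {u : V} (p : H.Walk u u) (x y : V) : ℕ := if s(x, y) ∈ p.edges then 1 else 0

lemma chi_comm {u : V} (p : H.Walk u u) (x y : V) : chi p x y = chi p y x := by
  unfold chi; rw [Sym2.eq_swap]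

lemma chi_le {u : V} (p : H.Walk u u) (x y : V) : chi p x y ≤ 1 := by
  unfold chi; split_ifs <;> omega

lemma chi_eq_zero {u : V} (p : H.Walk u u) {x y : V} (h : ¬ H.Adj x y) : chi p x y = 0 := by
  unfold chi
  rw [if_neg]
  intro hm
  exact h (p.adj_of_mem_edges hm)

lemma deg_two [Fintype V] {u : V} (p : H.Walk u u) (hp : p.IsHamiltonianCycle) (x : V) :
    ∑ y, chi p x y = 2 := by
  have h1 := hp.isCycle.ncard_neighborSet_toSubgraph_eq_two (hp.mem_support x)
  have h2 : p.toSubgraph.neighborSet x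
      = ((Finset.univ.filter (fun y => s(x, y) ∈ p.edges) : Finset V) : Set V) := by
    ext y
    simp [Subgraph.mem_neighborSet, Walk.adj_toSubgraph_iff_mem_edges]
  rw [h2, Set.ncard_coe_finset] at h1
  unfold chi
  rw [Finset.sum_boole]
  exact_mod_cast h1

lemma cut_exists {u : V} (p : H.Walk u u) (hp : p.IsHamiltonianCycle) (S : Set V) {a b : V}
    (ha : a ∈ S) (hb : b ∉ S) : ∃ x y, x ∈ S ∧ y ∉ S ∧ s(x, y) ∈ p.edges := by
  by_cases hu : u ∈ S
  · obtain ⟨d, hd, h1, h2⟩ := (p.takeUntil b (hp.mem_support b)).exists_boundary_dart S hu hb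
    refine ⟨d.fst, d.snd, h1, h2, ?_⟩
    have h3 : d ∈ p.darts := p.darts_takeUntil_subset_darts _ hd
    exact List.mem_map.2 ⟨d, h3, by simp [Dart.edge]⟩
  · obtain ⟨d, hd, h1, h2⟩ := (p.takeUntil a (hp.mem_support a)).exists_boundary_dart Sᶜ hu
      (by simpa using ha)
    refine ⟨d.snd, d.fst, by simpa using h2, h1, ?_⟩
    have h3 : d ∈ p.darts := p.darts_takeUntil_subset_darts _ hd
    rw [Sym2.eq_swap]
    exact List.mem_map.2 ⟨d, h3, by simp [Dart.edge]⟩

lemma sum_four [Fintype V] {u : V} (p : H.Walk u u) (hp : p.IsHamiltonianCycle)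
    (x y1 y2 y3 y4 : V) (h : ∀ y, H.Adj x y → y = y1 ∨ y = y2 ∨ y = y3 ∨ y = y4)
    (hd : y1 ≠ y2 ∧ y1 ≠ y3 ∧ y1 ≠ y4 ∧ y2 ≠ y3 ∧ y2 ≠ y4 ∧ y3 ≠ y4) :
    chi p x y1 + chi p x y2 + chi p x y3 + chi p x y4 = 2 := by
  obtain ⟨h12, h13, h14, h23, h24, h34⟩ := hd
  have h0 := deg_two p hp x
  have h1 : ∑ y ∈ ({y1, y2, y3, y4} : Finset V), chi p x y = ∑ y, chi p x y := by
    apply Finset.sum_subset (Finset.subset_univ _)
    intro y _ hy
    apply chi_eq_zero
    intro hadj
    apply hy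
    rcases h y hadj with h | h | h | h <;> simp [h]
  rw [← h1, Finset.sum_insert, Finset.sum_insert, Finset.sum_insert, Finset.sum_singleton] at h0
  · omega
  · simpa using h34
  · simp [h23, h24]
  · simp [h12, h13, h14]

lemma cut_sum {u : V} (p : H.Walk u u) (hp : p.IsHamiltonianCycle) (S : Set V) {a b : V}
    (ha : a ∈ S) (hb : b ∉ S) (B : List (V × V))
    (hB : ∀ x y, x ∈ S → y ∉ S → H.Adj x y → (x, y) ∈ B) :
    1 ≤ (B.map (fun e => chi p e.1 e.2)).sum := by
  obtain ⟨x, y, hx, hy, he⟩ := cut_exists p hp S ha hb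
  have h1 := hB x y hx hy (p.adj_of_mem_edges he)
  have h2 : chi p x y = 1 := by simp [chi, he]
  have h3 : chi p x y ∈ B.map (fun e => chi p e.1 e.2) := List.mem_map.2 ⟨(x, y), h1, rfl⟩
  calc 1 = chi p x y := h2.symm
    _ ≤ _ := List.single_le_sum (fun _ _ => Nat.zero_le _) _ h3

lemma chi_compl {u v : V} (p : H.Walk u u) (q : H.Walk v v)
    (h : ∀ e ∈ H.edgeSet, (e ∈ p.edges ↔ e ∉ q.edges)) {x y : V} (hxy : H.Adj x y) :
    chi p x y + chi q x y = 1 := by
  have := h s(x, y) hxy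
  unfold chi
  by_cases h1 : s(x, y) ∈ p.edges
  · have h2 := this.1 h1
    simp [h1, h2]
  · have h2 : s(x, y) ∈ q.edges := by
      by_contra h3
      exact h1 (this.2 h3)
    simp [h1, h2]

end Pool.Agent.TH386.PR
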