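import Pool.Agent.TH386.PR.Ring

set_option autoImplicit false

namespace Pool.Agent.TH386.PR

open SimpleGraph Finset

lemma dia (f0 f1 g0 g1 a0 a1 b0 b1 c0 c1 d0 d1 e0 e1 z1 z2 z3 z4 : ℕ)
    (h10 : f0 + a0 + b0 + z1 = 2) (h11 : f1 + a1 + b1 + z1 = 2)
    (h20 : a0 + c0 + d0 + z2 = 2) (h21 : a1 + c1 + d1 + z2 = 2)
    (h30 : b0 + c0 + e0 + z3 = 2) (h31 : b1 + c1 + e1 + z3 = 2)
    (h40 : d0 + e0 + g0 + z4 = 2) (h41 : d1 + e1 + g1 + z4 = 2)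
    (lo : 1 ≤ f0 + f1 + g0 + g1) (hi : f0 + f1 + g0 + g1 ≤ 3) : f0 + f1 + g0 + g1 = 2 := by
  omega

lemma pole (a0 a1 b0 b1 e0 e1 f0 f1 h0 h1 z0 z9 : ℕ)
    (_ : a0 ≤ 1) (_ : a1 ≤ 1) (_ : b0 ≤ 1) (_ : b1 ≤ 1) (_ : e0 ≤ 1) (_ : e1 ≤ 1)
    (_ : f0 ≤ 1) (_ : f1 ≤ 1) (_ : h0 ≤ 1) (_ : h1 ≤ 1) (_ : z0 ≤ 1) (_ : z9 ≤ 1)
    (v00 : a0 + f0 + e0 + z0 = 2) (v01 : a1 + f1 + e1 + z0 = 2)
    (v90 : e0 + h0 + b0 + z9 = 2) (v91 : e1 + h1 + b1 + z9 = 2)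
    (F : f0 + f1 = 1) (K : h0 + h1 = 1)
    (lo : 1 ≤ a0 + a1 + b0 + b1) (hi : a0 + a1 + b0 + b1 ≤ 3)
    (lo0 : 1 ≤ a0 + b0 + z0 + z9 + f1 + h1) (hi0 : a0 + b0 + z0 + z9 + f1 + h1 ≤ 5)
    (lo1 : 1 ≤ a1 + b1 + z0 + z9 + f0 + h0) (hi1 : a1 + b1 + z0 + z9 + f0 + h0 ≤ 5) :
    a0 + a1 + b0 + b1 = 2 ∧ ¬ (a0 = b0 ∧ a1 = b1 ∧ a0 ≠ a1) := by
  omega

lemma ring (x0 x1 y0 y1 w0 w1 : ℕ) (hx0 : x0 ≤ 1) (hx1 : x1 ≤ 1) (hy0 : y0 ≤ 1) (hy1 : y1 ≤ 1)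
    (hw0 : w0 ≤ 1) (hw1 : w1 ≤ 1)
    (h1 : x0 + x1 + y0 + y1 = 2 ∧ ¬ (x0 = y0 ∧ x1 = y1 ∧ x0 ≠ x1))
    (h2 : y0 + y1 + w0 + w1 = 2 ∧ ¬ (y0 = w0 ∧ y1 = w1 ∧ y0 ≠ y1))
    (h3 : w0 + w1 + x0 + x1 = 2 ∧ ¬ (w0 = x0 ∧ w1 = x1 ∧ w0 ≠ w1)) : False := by
  omega

/-- A cut for the complementary cycle. -/
lemma cut_compl {u v : Fin 30 × Fin 2} (p : H.Walk u u) (q : H.Walk v v)
    (h : ∀ e ∈ H.edgeSet, (e ∈ p.edges ↔ e ∉ q.edges))
    (B : List ((Fin 30 × Fin 2) × (Fin 30 × Fin 2)))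
    (hB : ∀ e ∈ B, H.Adj e.1 e.2) :
    (B.map (fun e => chi p e.1 e.2)).sum + (B.map (fun e => chi q e.1 e.2)).sum = B.length := by
  induction B with
  | nil => simp
  | cons e B ih =>
    have h1 := chi_compl p q h (hB e (by simp))
    have h2 := ih (fun e' he' => hB e' (by simp [he']))
    simp only [List.map_cons, List.sum_cons, List.length_cons]
    omega

lemma bd_adj : ∀ (k : Fin 6) (i : Fin 3), ∀ e ∈ bd k i, adjH e.1 e.2 = true := by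
  decide +kernel

lemma cuts {u v : Fin 30 × Fin 2} (p : H.Walk u u) (q : H.Walk v v)
    (hp : p.IsHamiltonianCycle) (hq : q.IsHamiltonianCycle)
    (h : ∀ e ∈ H.edgeSet, (e ∈ p.edges ↔ e ∉ q.edges)) (k : Fin 6) (i : Fin 3) :
    1 ≤ ((bd k i).map (fun e => chi p e.1 e.2)).sum ∧
      ((bd k i).map (fun e => chi p e.1 e.2)).sum + 1 ≤ (bd k i).length := by
  have h1 := cutk p hp k i
  have h2 := cutk q hq k i
  have h3 := cut_compl p q h (bd k i) (fun e he => (adjH_iff _ _).2 (bd_adj k i e he))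
  omega

lemma block {u v : Fin 30 × Fin 2} (p : H.Walk u u) (q : H.Walk v v)
    (hp : p.IsHamiltonianCycle) (hq : q.IsHamiltonianCycle)
    (h : ∀ e ∈ H.edgeSet, (e ∈ p.edges ↔ e ∉ q.edges)) (i : Fin 3) :
    chi p (vt i 0 0) (vt (i - 1) 9 0) + chi p (vt i 0 1) (vt (i - 1) 9 1) +
        chi p (vt i 9 0) (vt (i + 1) 0 0) + chi p (vt i 9 1) (vt (i + 1) 0 1) = 2 ∧
      ¬ (chi p (vt i 0 0) (vt (i - 1) 9 0) = chi p (vt i 9 0) (vt (i + 1) 0 0) ∧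
        chi p (vt i 0 1) (vt (i - 1) 9 1) = chi p (vt i 9 1) (vt (i + 1) 0 1) ∧
        chi p (vt i 0 0) (vt (i - 1) 9 0) ≠ chi p (vt i 0 1) (vt (i - 1) 9 1)) := by
  -- degrees
  have d0 : ∀ l, chi p (vt i 0 l) (vt (i - 1) 9 l) + chi p (vt i 0 l) (vt i 1 l) +
      chi p (vt i 0 l) (vt i 9 l) + chi p (vt i 0 l) (vt i 0 (fl l)) = 2 :=
    fun l => deg p hp 0 i l
  have d1 : ∀ l, chi p (vt i 1 l) (vt i 0 l) + chi p (vt i 1 l) (vt i 2 l) +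
      chi p (vt i 1 l) (vt i 3 l) + chi p (vt i 1 l) (vt i 1 (fl l)) = 2 :=
    fun l => deg p hp 1 i l
  have d2 : ∀ l, chi p (vt i 2 l) (vt i 1 l) + chi p (vt i 2 l) (vt i 3 l) +
      chi p (vt i 2 l) (vt i 4 l) + chi p (vt i 2 l) (vt i 2 (fl l)) = 2 :=
    fun l => deg p hp 2 i l
  have d3 : ∀ l, chi p (vt i 3 l) (vt i 1 l) + chi p (vt i 3 l) (vt i 2 l) +
      chi p (vt i 3 l) (vt i 4 l) + chi p (vt i 3 l) (vt i 3 (fl l)) = 2 :=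
    fun l => deg p hp 3 i l
  have d4 : ∀ l, chi p (vt i 4 l) (vt i 2 l) + chi p (vt i 4 l) (vt i 3 l) +
      chi p (vt i 4 l) (vt i 5 l) + chi p (vt i 4 l) (vt i 4 (fl l)) = 2 :=
    fun l => deg p hp 4 i l
  have d5 : ∀ l, chi p (vt i 5 l) (vt i 4 l) + chi p (vt i 5 l) (vt i 6 l) +
      chi p (vt i 5 l) (vt i 7 l) + chi p (vt i 5 l) (vt i 5 (fl l)) = 2 :=
    fun l => deg p hp 5 i l
  have d6 : ∀ l, chi p (vt i 6 l) (vt i 5 l) + chi p (vt i 6 l) (vt i 7 l) +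
      chi p (vt i 6 l) (vt i 8 l) + chi p (vt i 6 l) (vt i 6 (fl l)) = 2 :=
    fun l => deg p hp 6 i l
  have d7 : ∀ l, chi p (vt i 7 l) (vt i 5 l) + chi p (vt i 7 l) (vt i 6 l) +
      chi p (vt i 7 l) (vt i 8 l) + chi p (vt i 7 l) (vt i 7 (fl l)) = 2 :=
    fun l => deg p hp 7 i l
  have d8 : ∀ l, chi p (vt i 8 l) (vt i 6 l) + chi p (vt i 8 l) (vt i 7 l) +
      chi p (vt i 8 l) (vt i 9 l) + chi p (vt i 8 l) (vt i 8 (fl l)) = 2 :=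
    fun l => deg p hp 8 i l
  have d9 : ∀ l, chi p (vt i 9 l) (vt i 0 l) + chi p (vt i 9 l) (vt i 8 l) +
      chi p (vt i 9 l) (vt (i + 1) 0 l) + chi p (vt i 9 l) (vt i 9 (fl l)) = 2 :=
    fun l => deg p hp 9 i l
  have f0 : fl 0 = 1 := rfl
  have f1 : fl 1 = 0 := rfl
  have zc : ∀ j, chi p (vt i j 1) (vt i j 0) = chi p (vt i j 0) (vt i j 1) :=
    fun j => chi_comm p _ _
  have ec : ∀ j k l, chi p (vt i j l) (vt i k l) = chi p (vt i k l) (vt i j l) :=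
    fun j k l => chi_comm p _ _
  -- cuts
  have c0 := cuts p q hp hq h 0 i
  have c1 := cuts p q hp hq h 1 i
  have c2 := cuts p q hp hq h 2 i
  have c3 := cuts p q hp hq h 3 i
  have c4 := cuts p q hp hq h 4 i
  have c5 := cuts p q hp hq h 5 i
  simp only [bd, List.map_cons, List.map_nil, List.sum_cons, List.sum_nil, List.length_cons,
    List.length_nil, add_zero] at c0 c1 c2 c3 c4 c5
  have d00 := d0 0
  have d01 := d0 1
  have d10 := d1 0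
  have d11 := d1 1
  have d20 := d2 0
  have d21 := d2 1
  have d30 := d3 0
  have d31 := d3 1
  have d40 := d4 0
  have d41 := d4 1
  have d50 := d5 0
  have d51 := d5 1
  have d60 := d6 0
  have d61 := d6 1
  have d70 := d7 0
  have d71 := d7 1
  have d80 := d8 0
  have d81 := d8 1
  have d90 := d9 0
  have d91 := d9 1
  rw [f0] at d00 d10 d20 d30 d40 d50 d60 d70 d80 d90
  rw [f1] at d01 d11 d21 d31 d41 d51 d61 d71 d81 d91
  rw [zc] at d01 d11 d21 d31 d41 d51 d61 d71 d81 d91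
  rw [zc, zc] at c5
  have q1 := dia (chi p (vt i 1 0) (vt i 0 0)) (chi p (vt i 1 1) (vt i 0 1))
    (chi p (vt i 4 0) (vt i 5 0)) (chi p (vt i 4 1) (vt i 5 1))
    (chi p (vt i 1 0) (vt i 2 0)) (chi p (vt i 1 1) (vt i 2 1))
    (chi p (vt i 1 0) (vt i 3 0)) (chi p (vt i 1 1) (vt i 3 1))
    (chi p (vt i 2 0) (vt i 3 0)) (chi p (vt i 2 1) (vt i 3 1))
    (chi p (vt i 2 0) (vt i 4 0)) (chi p (vt i 2 1) (vt i 4 1))
    (chi p (vt i 3 0) (vt i 4 0)) (chi p (vt i 3 1) (vt i 4 1))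
    (chi p (vt i 1 0) (vt i 1 1)) (chi p (vt i 2 0) (vt i 2 1))
    (chi p (vt i 3 0) (vt i 3 1)) (chi p (vt i 4 0) (vt i 4 1))
    d10 d11 (by rw [ec 1 2 0]; exact d20) (by rw [ec 1 2 1]; exact d21)
    (by rw [ec 1 3 0, ec 2 3 0]; exact d30) (by rw [ec 1 3 1, ec 2 3 1]; exact d31)
    (by rw [ec 2 4 0, ec 3 4 0]; exact d40) (by rw [ec 2 4 1, ec 3 4 1]; exact d41)
    (by omega) (by omega)
  have q2 := dia (chi p (vt i 5 0) (vt i 4 0)) (chi p (vt i 5 1) (vt i 4 1))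
    (chi p (vt i 8 0) (vt i 9 0)) (chi p (vt i 8 1) (vt i 9 1))
    (chi p (vt i 5 0) (vt i 6 0)) (chi p (vt i 5 1) (vt i 6 1))
    (chi p (vt i 5 0) (vt i 7 0)) (chi p (vt i 5 1) (vt i 7 1))
    (chi p (vt i 6 0) (vt i 7 0)) (chi p (vt i 6 1) (vt i 7 1))
    (chi p (vt i 6 0) (vt i 8 0)) (chi p (vt i 6 1) (vt i 8 1))
    (chi p (vt i 7 0) (vt i 8 0)) (chi p (vt i 7 1) (vt i 8 1))
    (chi p (vt i 5 0) (vt i 5 1)) (chi p (vt i 6 0) (vt i 6 1))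
    (chi p (vt i 7 0) (vt i 7 1)) (chi p (vt i 8 0) (vt i 8 1))
    d50 d51 (by rw [ec 5 6 0]; exact d60) (by rw [ec 5 6 1]; exact d61)
    (by rw [ec 5 7 0, ec 6 7 0]; exact d70) (by rw [ec 5 7 1, ec 6 7 1]; exact d71)
    (by rw [ec 6 8 0, ec 7 8 0]; exact d80) (by rw [ec 6 8 1, ec 7 8 1]; exact d81)
    (by omega) (by omega)
  have g0 := ec 5 4 0
  have g1 := ec 5 4 1
  have F : chi p (vt i 1 0) (vt i 0 0) + chi p (vt i 1 1) (vt i 0 1) = 1 := by omega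
  have K : chi p (vt i 8 0) (vt i 9 0) + chi p (vt i 8 1) (vt i 9 1) = 1 := by omega
  refine pole (chi p (vt i 0 0) (vt (i - 1) 9 0)) (chi p (vt i 0 1) (vt (i - 1) 9 1))
    (chi p (vt i 9 0) (vt (i + 1) 0 0)) (chi p (vt i 9 1) (vt (i + 1) 0 1))
    (chi p (vt i 0 0) (vt i 9 0)) (chi p (vt i 0 1) (vt i 9 1))
    (chi p (vt i 1 0) (vt i 0 0)) (chi p (vt i 1 1) (vt i 0 1))
    (chi p (vt i 8 0) (vt i 9 0)) (chi p (vt i 8 1) (vt i 9 1))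
    (chi p (vt i 0 0) (vt i 0 1)) (chi p (vt i 9 0) (vt i 9 1))
    (chi_le _ _ _) (chi_le _ _ _) (chi_le _ _ _) (chi_le _ _ _) (chi_le _ _ _)
    (chi_le _ _ _) (chi_le _ _ _) (chi_le _ _ _) (chi_le _ _ _) (chi_le _ _ _)
    (chi_le _ _ _) (chi_le _ _ _) ?_ ?_ ?_ ?_ F K ?_ ?_ ?_ ?_ ?_ ?_
  · rw [ec 1 0 0]; omega
  · rw [ec 1 0 1]; omega
  · rw [ec 0 9 0, ec 8 9 0]; omega
  · rw [ec 0 9 1, ec 8 9 1]; omega
  · omega
  · omega
  · omega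
  · omega
  · omega
  · omega

theorem no_decomposition {u v : Fin 30 × Fin 2} (p : H.Walk u u) (q : H.Walk v v)
    (hp : p.IsHamiltonianCycle) (hq : q.IsHamiltonianCycle)
    (h : ∀ e ∈ H.edgeSet, (e ∈ p.edges ↔ e ∉ q.edges)) : False := by
  have b0 := block p q hp hq h 0
  have b1 := block p q hp hq h 1
  have b2 := block p q hp hq h 2
  have e1 : (0 : Fin 3) - 1 = 2 := by decide
  have e2 : (0 : Fin 3) + 1 = 1 := by decide
  have e3 : (1 : Fin 3) - 1 = 0 := by decide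
  have e4 : (1 : Fin 3) + 1 = 2 := by decide
  have e5 : (2 : Fin 3) - 1 = 1 := by decide
  have e6 : (2 : Fin 3) + 1 = 0 := by decide
  rw [e1, e2] at b0
  rw [e3, e4] at b1
  rw [e5, e6] at b2
  have s : ∀ i i' l, chi p (vt i 9 l) (vt i' 0 l) = chi p (vt i' 0 l) (vt i 9 l) :=
    fun i i' l => chi_comm p _ _
  rw [s 0 1 0, s 0 1 1] at b0
  rw [s 1 2 0, s 1 2 1] at b1
  rw [s 2 0 0, s 2 0 1] at b2
  exact ring _ _ _ _ _ _ (chi_le _ _ _) (chi_le _ _ _) (chi_le _ _ _) (chi_le _ _ _)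
    (chi_le _ _ _) (chi_le _ _ _) b0 b1 b2

/-- The vertices in the order of a Hamilton cycle. -/
def hl : List (Fin 30) := (List.finRange 30) ++ [0]

lemma hl_ne : hl ≠ [] := by decide
lemma hl_chain : hl.IsChain G.Adj := by decide +kernel
lemma hl_head : hl.head hl_ne = 0 := by decide +kernel
lemma hl_last : hl.getLast hl_ne = 0 := by decide +kernel

/-- The Hamilton cycle as a walk. -/
def hw : G.Walk 0 0 := (Walk.ofSupport hl hl_ne hl_chain).copy hl_head hl_last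

lemma hw_support : hw.support = hl := by
  unfold hw
  rw [Walk.support_copy, Walk.support_ofSupport]

lemma hw_length : hw.length = 30 := by
  have h := hw.length_support
  rw [hw_support] at h
  have : hl.length = 31 := by decide +kernel
  omega

lemma hw_edges : hw.edges.Nodup := by
  unfold hw
  rw [Walk.edges_copy]
  decide +kernel

lemma hamiltonian : G.IsHamiltonian := by
  intro _
  refine ⟨0, hw, ?_⟩
  rw [Walk.isHamiltonianCycle_iff_isCycle_and_length_eq]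
  refine ⟨?_, by rw [hw_length]; rfl⟩
  rw [Walk.isCycle_def, Walk.isTrail_def]
  refine ⟨hw_edges, ?_, ?_⟩
  · intro hnil
    have h := hw_length
    rw [hnil] at h
    simp at h
  · rw [hw_support]
    decide +kernel

end Pool.Agent.TH386.PR
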