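import Pool.Agent.TH386.PR.Gen

set_option autoImplicit false

/-!
A hamiltonian cubic graph on 30 vertices whose prism has no Hamilton decomposition.

The graph is the cycle `0, 1, ..., 29` with the chords `10 i + {0,9}`, `10 i + {1,3}`,
`10 i + {2,4}`, `10 i + {5,7}`, `10 i + {6,8}`, `i = 0, 1, 2`.
-/

namespace Pool.Agent.TH386.PR

open SimpleGraph Finset

/-- The chords inside a block of ten vertices. -/
def chord (a b : ℕ) : Bool :=
  (a == 0 && b == 9) || (a == 1 && b == 3) || (a == 2 && b == 4) || (a == 5 && b == 7) ||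
    (a == 6 && b == 8)

/-- Adjacency (one direction). -/
def adjB (a b : ℕ) : Bool :=
  ((a + 1) % 30 == b) || ((b + 1) % 30 == a) ||
    (a / 10 == b / 10 && (chord (a % 10) (b % 10) || chord (b % 10) (a % 10)))

/-- The graph on 30 vertices. -/
def G : SimpleGraph (Fin 30) where
  Adj a b := adjB a.1 b.1 = true
  symm := by
    have h : ∀ a b : Fin 30, adjB a.1 b.1 = true → adjB b.1 a.1 = true := by decide +kernel
    exact ⟨fun a b => h a b⟩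
  loopless := ⟨by
    have h : ∀ a : Fin 30, ¬ adjB a.1 a.1 = true := by decide +kernel
    exact fun a => h a⟩

instance : DecidableRel G.Adj := fun a b => inferInstanceAs (Decidable (adjB a.1 b.1 = true))

/-- The prism over `G`. -/
abbrev H : SimpleGraph (Fin 30 × Fin 2) := G.boxProd (⊤ : SimpleGraph (Fin 2))

lemma regular : G.IsRegularOfDegree 3 := by
  intro v
  revert v
  decide +kernel

/-- Adjacency of the prism as a Boolean. -/
def adjH (x y : Fin 30 × Fin 2) : Bool :=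
  (adjB x.1.1 y.1.1 && x.2 == y.2) || (x.1 == y.1 && x.2 != y.2)

lemma adjH_iff (x y : Fin 30 × Fin 2) : H.Adj x y ↔ adjH x y = true := by
  rw [boxProd_adj]
  unfold adjH
  simp only [top_adj, Bool.or_eq_true, Bool.and_eq_true, beq_iff_eq, bne_iff_ne, ne_eq]
  constructor
  · rintro (⟨h1, h2⟩ | ⟨h1, h2⟩)
    · exact Or.inl ⟨h1, h2⟩
    · exact Or.inr ⟨h2, h1⟩
  · rintro (⟨h1, h2⟩ | ⟨h1, h2⟩)
    · exact Or.inl ⟨h1, h2⟩
    · exact Or.inr ⟨h2, h1⟩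

/-- The vertex number `j` of block `i` in layer `l`. -/
def vt (i : Fin 3) (j : Fin 10) (l : Fin 2) : Fin 30 × Fin 2 :=
  (⟨10 * i.1 + j.1, by omega⟩, l)

/-- The other layer. -/
def fl (l : Fin 2) : Fin 2 := 1 - l

section walk

variable {u : Fin 30 × Fin 2} (p : H.Walk u u) (hp : p.IsHamiltonianCycle)

include hp

lemma four (x y1 y2 y3 y4 : Fin 30 × Fin 2)
    (h : ∀ y, adjH x y = true → y = y1 ∨ y = y2 ∨ y = y3 ∨ y = y4)
    (hd : y1 ≠ y2 ∧ y1 ≠ y3 ∧ y1 ≠ y4 ∧ y2 ≠ y3 ∧ y2 ≠ y4 ∧ y3 ≠ y4) :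
    chi p x y1 + chi p x y2 + chi p x y3 + chi p x y4 = 2 :=
  sum_four p hp x y1 y2 y3 y4 (fun y hy => h y ((adjH_iff x y).1 hy)) hd

end walk

/-- The neighbours of the vertices. -/
def nb : Fin 10 → Fin 3 → Fin 2 → Fin 4 → Fin 30 × Fin 2
  | 0, i, l => ![vt (i - 1) 9 l, vt i 1 l, vt i 9 l, vt i 0 (fl l)]
  | 1, i, l => ![vt i 0 l, vt i 2 l, vt i 3 l, vt i 1 (fl l)]
  | 2, i, l => ![vt i 1 l, vt i 3 l, vt i 4 l, vt i 2 (fl l)]
  | 3, i, l => ![vt i 1 l, vt i 2 l, vt i 4 l, vt i 3 (fl l)]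
  | 4, i, l => ![vt i 2 l, vt i 3 l, vt i 5 l, vt i 4 (fl l)]
  | 5, i, l => ![vt i 4 l, vt i 6 l, vt i 7 l, vt i 5 (fl l)]
  | 6, i, l => ![vt i 5 l, vt i 7 l, vt i 8 l, vt i 6 (fl l)]
  | 7, i, l => ![vt i 5 l, vt i 6 l, vt i 8 l, vt i 7 (fl l)]
  | 8, i, l => ![vt i 6 l, vt i 7 l, vt i 9 l, vt i 8 (fl l)]
  | 9, i, l => ![vt i 0 l, vt i 8 l, vt (i + 1) 0 l, vt i 9 (fl l)]

lemma nb_spec : ∀ (j : Fin 10) (i : Fin 3) (l : Fin 2) (y : Fin 30 × Fin 2),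
    adjH (vt i j l) y = true →
      y = nb j i l 0 ∨ y = nb j i l 1 ∨ y = nb j i l 2 ∨ y = nb j i l 3 := by
  decide +kernel

lemma nb_ne : ∀ (j : Fin 10) (i : Fin 3) (l : Fin 2),
    nb j i l 0 ≠ nb j i l 1 ∧ nb j i l 0 ≠ nb j i l 2 ∧ nb j i l 0 ≠ nb j i l 3 ∧
    nb j i l 1 ≠ nb j i l 2 ∧ nb j i l 1 ≠ nb j i l 3 ∧ nb j i l 2 ≠ nb j i l 3 := by
  decide +kernel

lemma nb_adj : ∀ (j : Fin 10) (i : Fin 3) (l : Fin 2) (k : Fin 4),
    adjH (vt i j l) (nb j i l k) = true := by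
  decide +kernel

lemma deg {u : Fin 30 × Fin 2} (p : H.Walk u u) (hp : p.IsHamiltonianCycle)
    (j : Fin 10) (i : Fin 3) (l : Fin 2) :
    chi p (vt i j l) (nb j i l 0) + chi p (vt i j l) (nb j i l 1) +
      chi p (vt i j l) (nb j i l 2) + chi p (vt i j l) (nb j i l 3) = 2 :=
  four p hp _ _ _ _ _ (nb_spec j i l) (nb_ne j i l)

/-- The six vertex sets: `0`: first diamond, `1`: second diamond, `2`: both diamonds,
`3`: the block, `4`, `5`: both diamonds and the vertices `0`, `9` of layer `k - 4`. -/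
def inS (k : Fin 6) (i : Fin 3) (x : Fin 30 × Fin 2) : Bool :=
  let j := x.1.1 % 10
  (x.1.1 / 10 == i.1) &&
  (match k with
  | 0 => 1 ≤ j && j ≤ 4
  | 1 => 5 ≤ j && j ≤ 8
  | 2 => 1 ≤ j && j ≤ 8
  | 3 => true
  | 4 => (1 ≤ j && j ≤ 8) || x.2 == 0
  | 5 => (1 ≤ j && j ≤ 8) || x.2 == 1)

/-- The boundary edges of the six sets. -/
def bd : Fin 6 → Fin 3 → List ((Fin 30 × Fin 2) × (Fin 30 × Fin 2))
  | 0, i => [(vt i 1 0, vt i 0 0), (vt i 1 1, vt i 0 1), (vt i 4 0, vt i 5 0),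
      (vt i 4 1, vt i 5 1)]
  | 1, i => [(vt i 5 0, vt i 4 0), (vt i 5 1, vt i 4 1), (vt i 8 0, vt i 9 0),
      (vt i 8 1, vt i 9 1)]
  | 2, i => [(vt i 1 0, vt i 0 0), (vt i 1 1, vt i 0 1), (vt i 8 0, vt i 9 0),
      (vt i 8 1, vt i 9 1)]
  | 3, i => [(vt i 0 0, vt (i - 1) 9 0), (vt i 0 1, vt (i - 1) 9 1),
      (vt i 9 0, vt (i + 1) 0 0), (vt i 9 1, vt (i + 1) 0 1)]
  | 4, i => [(vt i 0 0, vt (i - 1) 9 0), (vt i 9 0, vt (i + 1) 0 0), (vt i 0 0, vt i 0 1),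
      (vt i 9 0, vt i 9 1), (vt i 1 1, vt i 0 1), (vt i 8 1, vt i 9 1)]
  | 5, i => [(vt i 0 1, vt (i - 1) 9 1), (vt i 9 1, vt (i + 1) 0 1), (vt i 0 1, vt i 0 0),
      (vt i 9 1, vt i 9 0), (vt i 1 0, vt i 0 0), (vt i 8 0, vt i 9 0)]

lemma bd_spec : ∀ (k : Fin 6) (i : Fin 3) (x y : Fin 30 × Fin 2),
    inS k i x = true → inS k i y = false → adjH x y = true → (x, y) ∈ bd k i := by
  decide +kernel

lemma bd_ne : ∀ (k : Fin 6) (i : Fin 3),
    (∃ x, inS k i x = true) ∧ (∃ y, inS k i y = false) := by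
  decide +kernel

lemma cutk {u : Fin 30 × Fin 2} (p : H.Walk u u) (hp : p.IsHamiltonianCycle)
    (k : Fin 6) (i : Fin 3) : 1 ≤ ((bd k i).map (fun e => chi p e.1 e.2)).sum := by
  obtain ⟨⟨a, ha⟩, ⟨b, hb⟩⟩ := bd_ne k i
  refine cut_sum p hp {x | inS k i x = true} (a := a) (b := b) ha (by simpa using hb) _ ?_
  intro x y hx hy hxy
  exact bd_spec k i x y hx (by simpa using hy) ((adjH_iff x y).1 hxy)

end Pool.Agent.TH386.PR
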